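import Pool.Agent.H61.DW.ROT
import Pool.Agent.H63.HK.DS

/-!
# (UP) unfolding
-/

set_option autoImplicit false

open NumberField NumberField.InfinitePlace NumberField.Units
  NumberField.Units.dirichletUnitTheorem MeasureTheory Set Filter Complex
open scoped nonZeroDivisors ENNReal

namespace Pool.Agent.H61.DW

open Pool.Agent.H25.HK Pool.Agent.H23.LB Pool.Agent.H23.LC
open Pool.Agent.H28.RC (Rep ft idl)
open Pool.Agent.H29.DW
open Pool.Agent.H35.GLB (ek_norm ek_meas An_fin B0 Rk Rk_meas Rk_fin zl norm_idl yM_zl cpow_norm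
  ec_zl_pos)

section
open scoped Classical

variable (K : Type) [Field K] [NumberField K]

/-- the weights are summable over the ideals -/
theorem wt_sum (v : ℝ → ℂ) (hv : ∃ C : ℝ, ∀ x : ℝ, 1 ≤ x → ‖v x‖ ≤ C * x ^ (-(3 / 2) : ℝ)) :
    Summable (fun J : NZI K => ‖v (Ideal.absNorm J.1)‖) := by
  obtain ⟨C, hC⟩ := hv
  have h1 := (Pool.Agent.H63.HK.ds K (3 / 2 : ℂ) (by norm_num)).1
  refine Summable.of_nonneg_of_le (fun _ => norm_nonneg _) (fun J => ?_) (h1.mul_left C)
  have hN : 0 < Ideal.absNorm J.1 := by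
    rw [Nat.pos_iff_ne_zero, Ne, Ideal.absNorm_eq_zero_iff]
    exact J.2
  have hN1 : (1 : ℝ) ≤ (Ideal.absNorm J.1 : ℝ) := by exact_mod_cast hN
  refine (hC _ hN1).trans (le_of_eq ?_)
  congr 1
  have h2 : ((Ideal.absNorm J.1 : ℕ) : ℂ) = (((Ideal.absNorm J.1 : ℕ) : ℝ) : ℂ) := by push_cast; rfl
  rw [h2, Complex.norm_cpow_eq_rpow_re_of_pos (by linarith)]
  norm_num

theorem wt_fin (v : ℝ → ℂ) (hv : ∃ C : ℝ, ∀ x : ℝ, 1 ≤ x → ‖v x‖ ≤ C * x ^ (-(3 / 2) : ℝ))
    (L : FI K) :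
    ∑' J : {J : Ideal (𝓞 K) // Pri K L J}, ‖v (Ideal.absNorm J.1)‖ₑ ≠ ∞ := by
  have h1 := (wt_sum K v hv).tsum_ofReal_ne_top
  let i : {J : Ideal (𝓞 K) // Pri K L J} → NZI K := fun J => ⟨J.1, J.2.1⟩
  have hi : Function.Injective i := by
    intro J J' h
    have h2 : J.1 = J'.1 := Subtype.mk.inj h
    exact Subtype.ext h2
  refine ne_top_of_le_ne_top h1 ?_
  have h3 := ENNReal.tsum_comp_le_tsum_of_injective hi
    (fun J : NZI K => ENNReal.ofReal ‖v (Ideal.absNorm J.1)‖)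
  refine le_trans (le_of_eq ?_) h3
  refine tsum_congr fun J => ?_
  rw [ofReal_norm]

/-- the sum over the classes -/
theorem sum_cls {ι : Type} [Fintype ι] (L : ι → FI K) (hL : Reps K L)
    (g : Ideal (𝓞 K) → ℂ) (hg : Summable (fun J : NZI K => g J.1)) :
    ∑ c, ∑' J : {J : Ideal (𝓞 K) // Pri K (L c) J}, g J.1 = ∑' J : NZI K, g J.1 := by
  let e : (Σ c : ι, {I : Ideal (𝓞 K) // Pri K (L c) I}) ≃ NZI K :=
    Equiv.ofBijective (fun q => ⟨q.2.1, q.2.2.1⟩) (by
      constructor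
      · rintro ⟨c, J, hJ⟩ ⟨c', J', hJ'⟩ h
        have h1 : J = J' := by simpa using h
        subst h1
        have h2 : c = c' := (hL.2 J hJ.1).unique hJ hJ'
        subst h2
        rfl
      · rintro ⟨J, hJ⟩
        obtain ⟨c, hc, -⟩ := hL.2 J hJ
        exact ⟨⟨c, J, hc⟩, rfl⟩)
  have h8 : Summable (fun q => g (e q).1) := e.summable_iff.2 hg
  have h9 : ∑' q, g (e q).1 = ∑' c, ∑' J, g (e ⟨c, J⟩).1 := h8.tsum_sigma
  rw [← e.tsum_eq (fun J : NZI K => g J.1), h9, tsum_fintype]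
  rfl

variable {K}

/-- the integrand -/
noncomputable def Fw (cc : K → ℂ) (M : FI K) (cp : InfinitePlace K → ℂ) (H : InfinitePlace K → ℝ)
    (k : InfinitePlace K → ℤ) (ν : InfinitePlace K → ℝ) (t : ℝ) (v : ℝ → ℂ) (s : Bool) (x : K)
    (p : logSpace K × ℝ × (InfinitePlace K → ℝ)) : ℂ :=
  ec K ν p.1 * cexp (t * p.2.1 * I) * (ek k p.2.2 * (cc x * v (Ideal.absNorm (idl K M x)) *
    Wg cp H pb x (yM K M p.2.1 (zs s p.1)) (om s p.2.2)))

theorem yMz_meas (M : FI K) (s : Bool) :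
    Measurable (fun p : logSpace K × ℝ × (InfinitePlace K → ℝ) =>
      yM K M p.2.1 (zs s p.1)) := by
  have h1 := Pool.Agent.H35.GLB.yc_cont K
  have h2 : Continuous (fun p : logSpace K × ℝ × (InfinitePlace K → ℝ) =>
      ((zs s p.1, p.2.1 - Real.log (FractionalIdeal.absNorm M : ℝ)) : logSpace K × ℝ)) := by
    unfold zs
    cases s
    · simp only [Bool.false_eq_true, if_false]
      fun_prop
    · simp only [if_true]
      fun_prop
  exact (h1.comp h2).measurable

theorem Fw_meas (hPU : T_PU) (cc : K → ℂ) (M : FI K) (cp : InfinitePlace K → ℂ)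
    (H : InfinitePlace K → ℝ) (k : InfinitePlace K → ℤ) (ν : InfinitePlace K → ℝ) (t : ℝ)
    (v : ℝ → ℂ) (s : Bool) (x : K) : Measurable (Fw cc M cp H k ν t v s x) := by
  unfold Fw
  have h1 : Measurable (fun p : logSpace K × ℝ × (InfinitePlace K → ℝ) => ec K ν p.1) :=
    ((hPU K).2.2.2.2.1 ν).1.measurable.comp measurable_fst
  have h2 : Measurable (fun p : logSpace K × ℝ × (InfinitePlace K → ℝ) =>
      cexp (t * p.2.1 * I)) := by
    have : Continuous (fun p : logSpace K × ℝ × (InfinitePlace K → ℝ) =>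
      cexp (t * p.2.1 * I)) := by fun_prop
    exact this.measurable
  have h3 : Measurable (fun p : logSpace K × ℝ × (InfinitePlace K → ℝ) => ek k p.2.2) :=
    (ek_meas K k).comp (measurable_snd.comp measurable_snd)
  have h5 : Measurable (fun p : logSpace K × ℝ × (InfinitePlace K → ℝ) =>
      ((yM K M p.2.1 (zs s p.1), p.2.2) : (InfinitePlace K → ℝ) × (InfinitePlace K → ℝ))) :=
    (yMz_meas M s).prodMk (measurable_snd.comp measurable_snd)
  have h4 : Measurable (fun p : logSpace K × ℝ × (InfinitePlace K → ℝ) =>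
      Wg cp H pb x (yM K M p.2.1 (zs s p.1)) (om s p.2.2)) := by
    have h6 := Measurable.comp (Wg_meas cp H x s) h5
    exact h6
  generalize cc x * v (Ideal.absNorm (idl K M x)) = w0
  generalize hW : (fun p : logSpace K × ℝ × (InfinitePlace K → ℝ) =>
      Wg cp H pb x (yM K M p.2.1 (zs s p.1)) (om s p.2.2)) = W at h4
  have h7 : ∀ p : logSpace K × ℝ × (InfinitePlace K → ℝ),
      Wg cp H pb x (yM K M p.2.1 (zs s p.1)) (om s p.2.2) = W p := fun p => by rw [← hW]
  simp only [h7]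
  exact (h1.mul h2).mul (h3.mul (h4.const_mul w0))

/-- (UP) unfolding. -/
theorem pf_UP (hCG : U_CG) (hAG : U_AG) (hPU : T_PU) : V_UP := by
  intro K _ _ f hf χ ι _ M hM cp H t v hP hv
  set β : Ideal (𝓞 K) → ℂ := fun J => χ.ψ J * v (Ideal.absNorm J) *
    (Ideal.absNorm J : ℂ) ^ (-(t * I : ℂ)) with hβ
  set γ : Ideal (𝓞 K) → ℝ≥0∞ := fun J => ‖v (Ideal.absNorm J)‖ₑ * volume (An K) with hγ
  have hψ : ∀ J : Ideal (𝓞 K), ‖χ.ψ J‖ ≤ 1 := by
    intro J
    by_cases h1 : J = ⊥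
    · rw [h1, χ.map_bot, norm_zero]
      exact zero_le_one
    · by_cases h2 : J ⊔ f = ⊤
      · exact (χ.norm_one J h1 h2).le
      · rw [χ.eq_zero J h2, norm_zero]
        exact zero_le_one
  have hβs : Summable (fun J : NZI K => β J.1) := by
    refine Summable.of_norm_bounded (wt_sum K v hv) fun J => ?_
    have hN : 0 < Ideal.absNorm J.1 := by
      rw [Nat.pos_iff_ne_zero, Ne, Ideal.absNorm_eq_zero_iff]
      exact J.2
    have h2 : ‖(Ideal.absNorm J.1 : ℂ) ^ (-(t * I : ℂ))‖ = 1 := by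
      rw [Complex.norm_natCast_cpow_of_pos hN]
      simp
    simp only [hβ]
    rw [norm_mul, norm_mul, h2, mul_one]
    exact mul_le_of_le_one_left (norm_nonneg _) (hψ _)
  have hc : ∀ c : ι, ∫ p in Fd K ×ˢ (univ : Set ℝ) ×ˢ An K,
      ec K χ.ν p.1 * cexp (t * p.2.1 * I) *
      (ek χ.k p.2.2 * ∑' x : {x : K // x ∈ M c ∧ x ≠ 0}, cg χ (M c) x *
        v (Ideal.absNorm (idl K (M c) x)) *
          Wg cp H pb x (yM K (M c) p.2.1 (zs true p.1)) (om true p.2.2)) =
      (torsionOrder K : ℂ) * (∑' J : {J : Ideal (𝓞 K) // Pri K (M c) J}, β J.1) *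
        WH K cp H χ.k χ.ν t := by
    intro c
    have hL := hM.1 c
    obtain ⟨hcg0, hcg1, -⟩ := hCG K f χ (M c) hf hL
    have h2 : ∫ p in Fd K ×ˢ (univ : Set ℝ) ×ˢ An K,
      ec K χ.ν p.1 * cexp (t * p.2.1 * I) *
      (ek χ.k p.2.2 * ∑' x : {x : K // x ∈ M c ∧ x ≠ 0}, cg χ (M c) x *
        v (Ideal.absNorm (idl K (M c) x)) *
          Wg cp H pb x (yM K (M c) p.2.1 (zs true p.1)) (om true p.2.2)) =
        ∫ p in Fd K ×ˢ (univ : Set ℝ) ×ˢ An K, ∑' x : {x : K // x ∈ M c ∧ x ≠ 0},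
          Fw (cg χ (M c)) (M c) cp H χ.k χ.ν t v true x p := by
      refine integral_congr_ae (ae_of_all _ fun p => ?_)
      simp only
      unfold Fw
      rw [tsum_mul_left, tsum_mul_left]
    rw [h2, WH_eq]
    refine class_inf 1 (Or.inl rfl) (M c) hL (Pw K cp H χ.k χ.ν t)
      (Pw_meas K hPU _ _ _ _ _) (Pw_int K hPU cp H hP _ _ _) (Rk K (1 / 16)) (Rk_meas K _)
      (Rk_fin K _ (by norm_num)) (Fw (cg χ (M c)) (M c) cp H χ.k χ.ν t v true)
      (Fw_meas hPU _ _ _ _ _ _ _ _ _) β γ ?_ ?_ ?_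
    · simp only [hγ]
      rw [ENNReal.tsum_mul_right]
      exact ENNReal.mul_ne_top (wt_fin K v hv (M c)) (An_fin K).ne
    · intro x hx hx0 z τ
      have h4 := norm_idl K (M c) hL x hx hx0
      have h5 := yM_zl K (M c) hL x hx hx0 τ z
      have h6 := cpow_norm K (idl K (M c) x) h4.1 t τ
      have h7 := ec_zl_pos K hPU χ.ν χ.norm_zero x hx0 z
      have h8 : ∀ θ : InfinitePlace K → ℝ,
          Fw (cg χ (M c)) (M c) cp H χ.k χ.ν t v true x (z, τ, θ) =
          (ec K χ.ν z * cexp (t * τ * I) * (cg χ (M c) x * v (Ideal.absNorm (idl K (M c) x)))) *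
          (ek χ.k θ * ∏ w, tw1 (cp w) (H w) (pb w) (wv w x (yM K (M c) τ z) (om true θ))) := by
        intro θ
        unfold Fw Wg zs
        simp only [if_true]
        ring
      simp only [h8]
      rw [integral_const_mul, rot_p K (fun w => tw1 (cp w) (H w) (pb w)) χ.k _ x hx0, h5]
      unfold Pw
      rw [h7, one_smul, hcg0 x hx hx0]
      simp only [hβ]
      have h9 : (starRingEnd ℂ) (ag χ.k x) * ag χ.k x = 1 := by
        rw [mul_comm, Complex.mul_conj, Complex.normSq_eq_norm_sq, (hAG K χ.k).2.1 x hx0]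
        norm_num
      linear_combination (ec K χ.ν z * cexp (t * τ * I) * (starRingEnd ℂ) (ph χ.ν x) *
        χ.ψ (idl K (M c) x) * v (Ideal.absNorm (idl K (M c) x)) *
        Gk K (fun w => tw1 (cp w) (H w) (pb w)) χ.k
          (yc K (τ + Real.log (Ideal.absNorm (idl K (M c) x))) (z + zl K x))) * h9 -
        (χ.ψ (idl K (M c) x) * v (Ideal.absNorm (idl K (M c) x)) * ec K χ.ν z *
          (starRingEnd ℂ) (ph χ.ν x) *
          Gk K (fun w => tw1 (cp w) (H w) (pb w)) χ.k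
          (yc K (τ + Real.log (Ideal.absNorm (idl K (M c) x))) (z + zl K x))) * h6
    · intro x hx hx0 z τ
      have h5 := yM_zl K (M c) hL x hx hx0 τ z
      have h6 : ∀ θ : InfinitePlace K → ℝ,
          ‖Fw (cg χ (M c)) (M c) cp H χ.k χ.ν t v true x (z, τ, θ)‖ₑ ≤
          ‖v (Ideal.absNorm (idl K (M c) x))‖ₑ *
          Rk K (1 / 16) ((1 : ℝ) • z + zl K x,
            τ + Real.log (Ideal.absNorm (idl K (M c) x))) := by
        intro θ
        unfold Fw
        have e1 : ‖ec K χ.ν z‖ₑ = 1 := by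
          rw [← ofReal_norm, ((hPU K).2.2.2.2.1 χ.ν).2, ENNReal.ofReal_one]
        have e2 : ‖cexp (t * τ * I)‖ₑ = 1 := by
          have : (t : ℂ) * τ * I = ((t * τ : ℝ) : ℂ) * I := by push_cast; ring
          rw [← ofReal_norm, this, Complex.norm_exp_ofReal_mul_I, ENNReal.ofReal_one]
        have e3 : ‖ek χ.k θ‖ₑ = 1 := by
          rw [← ofReal_norm, ek_norm, ENNReal.ofReal_one]
        have e4 : ‖cg χ (M c) x‖ₑ ≤ 1 := by
          rw [← ofReal_norm, ← ENNReal.ofReal_one]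
          exact ENNReal.ofReal_le_ofReal (hcg1 x hx)
        have e5 := Wg_bd cp H hP x hx0 (yM K (M c) τ z) true θ
        have e6 : Rk K (1 / 16) ((1 : ℝ) • z + zl K x,
            τ + Real.log (Ideal.absNorm (idl K (M c) x))) =
            if B0 K (1 / 16) (fun v => yM K (M c) τ z v + 2 * Real.log (v x)) then 1 else 0 := by
          unfold Rk
          rw [h5, one_smul]
        rw [e6]
        simp only [zs, if_true, enorm_mul, e1, e2, e3, one_mul]
        calc ‖cg χ (M c) x‖ₑ * ‖v (Ideal.absNorm (idl K (M c) x))‖ₑ *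
            ‖Wg cp H pb x (yM K (M c) τ z) (om true θ)‖ₑ ≤
            1 * ‖v (Ideal.absNorm (idl K (M c) x))‖ₑ *
            (if B0 K (1 / 16) (fun v => yM K (M c) τ z v + 2 * Real.log (v x)) then 1 else 0) :=
              mul_le_mul' (mul_le_mul' e4 le_rfl) e5
          _ = _ := by rw [one_mul]
      refine (lintegral_mono h6).trans (le_of_eq ?_)
      rw [lintegral_const, Measure.restrict_apply_univ]
      simp only [hγ]
      ring
  rw [Finset.sum_congr rfl fun c _ => hc c, ← sum_cls K M hM β hβs, Finset.mul_sum]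
  refine Finset.sum_congr rfl fun c _ => ?_
  ring

end

end Pool.Agent.H61.DW
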