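import Pool.Agent.H35.GLB.CLS

/-!
# Unfolding the sum over all nonzero points of one ideal class
-/

set_option autoImplicit false

open NumberField NumberField.InfinitePlace NumberField.Units
  NumberField.Units.dirichletUnitTheorem MeasureTheory Set Filter Complex
open scoped nonZeroDivisors ENNReal

namespace Pool.Agent.H61.DW

open Pool.Agent.H25.HK Pool.Agent.H23.LB Pool.Agent.H23.LC
open Pool.Agent.H28.RC (Rep ft idl)
open Pool.Agent.H19.RC (Par)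
open Pool.Agent.H35.GLB

section
open scoped Classical

variable {K : Type} [Field K] [NumberField K]

/-- a generator of every ideal in the class -/
theorem class_inf (ε : ℝ) (hε : ε = 1 ∨ ε = -1) (L : FI K) (hL : L ≠ 0)
    (P : logSpace K × ℝ → ℂ) (hPm : Measurable P) (hPi : Integrable P)
    (R : logSpace K × ℝ → ℝ≥0∞) (hRm : Measurable R) (hRi : ∫⁻ p, R p ≠ ∞)
    (F : K → logSpace K × ℝ × (InfinitePlace K → ℝ) → ℂ) (hFm : ∀ x, Measurable (F x))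
    (β : Ideal (𝓞 K) → ℂ) (γ : Ideal (𝓞 K) → ℝ≥0∞)
    (hγ : ∑' J : {J : Ideal (𝓞 K) // Pri K L J}, γ J.1 ≠ ∞)
    (h1 : ∀ x ∈ L, x ≠ 0 → ∀ z τ, ∫ θ in An K, F x (z, τ, θ) =
      β (idl K L x) * P (ε • z + zl K x, τ + Real.log (Ideal.absNorm (idl K L x))))
    (h2 : ∀ x ∈ L, x ≠ 0 → ∀ z τ, ∫⁻ θ in An K, ‖F x (z, τ, θ)‖ₑ ≤
      γ (idl K L x) * R (ε • z + zl K x, τ + Real.log (Ideal.absNorm (idl K L x)))) :
    ∫ p in Fd K ×ˢ (univ : Set ℝ) ×ˢ An K, ∑' x : {x : K // x ∈ L ∧ x ≠ 0}, F x p =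
      (torsionOrder K : ℂ) * (∑' J : {J : Ideal (𝓞 K) // Pri K L J}, β J.1) *
        ∫ p, P p := by
  obtain ⟨X, hX, hX1, hXM, hXu⟩ := Pool.Agent.H19.RC.bi2 K L hL
  have hP : Par L X := ⟨hX, fun J => (hX1 J).1, hXM, hXu⟩
  have hID := Pool.Agent.H20.HKI.d_ID
  have hco : Countable ({I : Ideal (𝓞 K) // Pri K L I} × (𝓞 K)ˣ) :=
    hP.countable Pool.Agent.H20.HKI.d_SM hL
  -- the equivalence
  let e : {J : Ideal (𝓞 K) // Pri K L J} × (𝓞 K)ˣ ≃ {x : K // x ∈ L ∧ x ≠ 0} :=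
    Equiv.ofBijective (fun q => ⟨(q.2 : K) * X q.1, hP.XM _ _, hP.ne (q.1, q.2)⟩) (by
      constructor
      · rintro ⟨J, u⟩ ⟨J', u'⟩ h
        have h3 : (u : K) * X J = (u' : K) * X J' := congrArg Subtype.val h
        exact (hP.un _ (hP.XM J u) (hP.ne (J, u))).unique
          (y₁ := (J, u)) (y₂ := (J', u')) rfl h3
      · rintro ⟨x, hx⟩
        obtain ⟨p, hp, -⟩ := hP.un x hx.1 hx.2
        exact ⟨p, Subtype.ext hp.symm⟩)
  -- the functions on the space of `(z, τ)`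
  set mA : Measure (InfinitePlace K → ℝ) := volume.restrict (An K) with hmA
  set c : Ideal (𝓞 K) → ℝ := fun J => Real.log (Ideal.absNorm J) with hc
  have hcu : ∀ J : {J : Ideal (𝓞 K) // Pri K L J}, Countable (𝓞 K)ˣ := fun J =>
    Function.Injective.countable (f := fun u : (𝓞 K)ˣ =>
      ((J, u) : {I : Ideal (𝓞 K) // Pri K L I} × (𝓞 K)ˣ)) fun u v h => (Prod.ext_iff.1 h).2
  have hxm : ∀ q : {J : Ideal (𝓞 K) // Pri K L J} × (𝓞 K)ˣ,
      (q.2 : K) * X q.1 ∈ L := fun q => hP.XM _ _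
  have hx0 : ∀ q : {J : Ideal (𝓞 K) // Pri K L J} × (𝓞 K)ˣ,
      (q.2 : K) * X q.1 ≠ 0 := fun q => hP.ne (q.1, q.2)
  have hid : ∀ q : {J : Ideal (𝓞 K) // Pri K L J} × (𝓞 K)ˣ,
      idl K L ((q.2 : K) * X q.1) = q.1.1 := fun q => hP.idl_eq hID hL (q.1, q.2)
  have hzl : ∀ (q : {J : Ideal (𝓞 K) // Pri K L J} × (𝓞 K)ˣ) (z : logSpace K),
      ε • z + zl K ((q.2 : K) * X q.1) =
        ε • (z + lu K (sgu K ε q.2)) + zl K (X q.1) := by
    intro q z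
    rw [zl_mul K _ _ (by simp) (hP.X0 _), zl_unit, ← lu_sgu K ε hε, smul_add, smul_smul]
    have : ε * ε = 1 := by rcases hε with h | h <;> rw [h] <;> norm_num
    rw [this, one_smul, add_assoc]
  set PJ : {J : Ideal (𝓞 K) // Pri K L J} → logSpace K × ℝ → ℂ := fun J p =>
    P (ε • p.1 + zl K (X J), p.2 + c J.1) with hPJ
  set RJ : {J : Ideal (𝓞 K) // Pri K L J} → logSpace K × ℝ → ℝ≥0∞ := fun J p =>
    R (ε • p.1 + zl K (X J), p.2 + c J.1) with hRJ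
  have hmT := fun J : {J : Ideal (𝓞 K) // Pri K L J} =>
    mpT K ε hε (zl K (X J)) (c J.1)
  have hPJm : ∀ J, Measurable (PJ J) := fun J => hPm.comp (hmT J).measurable
  have hRJm : ∀ J, Measurable (RJ J) := fun J => hRm.comp (hmT J).measurable
  have hPJi : ∀ J, Integrable (PJ J) := fun J => (hmT J).integrable_comp_of_integrable hPi
  have hPJ2 : ∀ J, ∫ p, PJ J p = ∫ p, P p := by
    intro J
    have h3 := (hmT J).map_eq
    conv_rhs => rw [← h3]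
    rw [integral_map (hmT J).measurable.aemeasurable hPm.aestronglyMeasurable]
  have hRJ2 : ∀ J, ∫⁻ p, RJ J p = ∫⁻ p, R p := fun J => (hmT J).lintegral_comp hRm
  -- the terms
  have hFm3 : ∀ q : {J : Ideal (𝓞 K) // Pri K L J} × (𝓞 K)ˣ,
      Measurable (fun r : (logSpace K × ℝ) × (InfinitePlace K → ℝ) =>
        F ((q.2 : K) * X q.1) (r.1.1, r.1.2, r.2)) := fun q => (hFm _).comp (by fun_prop)
  have hl : ∀ q : {J : Ideal (𝓞 K) // Pri K L J} × (𝓞 K)ˣ,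
      ∫⁻ p in Fd K ×ˢ (univ : Set ℝ) ×ˢ An K, ‖F ((q.2 : K) * X q.1) p‖ₑ ≤
      γ q.1.1 * ∫⁻ p, RJ q.1 (p.1 + lu K (sgu K ε q.2), p.2) ∂(mz K) := by
    intro q
    rw [lint3, lintegral_prod _ (hFm3 q).enorm.aemeasurable, ← lintegral_const_mul]
    · refine lintegral_mono fun p => ?_
      have h3 := h2 _ (hxm q) (hx0 q) p.1 p.2
      rw [hid q, hzl q] at h3
      exact h3
    · exact (hRJm q.1).comp (by fun_prop)
  have htot : ∑' q : {J : Ideal (𝓞 K) // Pri K L J} × (𝓞 K)ˣ,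
      ∫⁻ p in Fd K ×ˢ (univ : Set ℝ) ×ˢ An K, ‖F ((q.2 : K) * X q.1) p‖ₑ ≠ ∞ := by
    refine ne_top_of_le_ne_top ?_ (ENNReal.tsum_le_tsum hl)
    rw [ENNReal.tsum_prod']
    have h3 : ∀ J : {J : Ideal (𝓞 K) // Pri K L J}, ∑' u : (𝓞 K)ˣ,
        γ J.1 * ∫⁻ p, RJ J (p.1 + lu K (sgu K ε u), p.2) ∂(mz K) =
        γ J.1 * ((torsionOrder K : ℝ≥0∞) * ∫⁻ p, R p) := by
      intro J
      have hcJ := hcu J
      rw [ENNReal.tsum_mul_left, (sgu K ε).tsum_eq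
        (fun u => ∫⁻ p, RJ J (p.1 + lu K u, p.2) ∂(mz K)),
        unf_norm K Pool.Agent.H66.HK.fd Pool.Agent.H41.HK.un (RJ J) (hRJm J), hRJ2]
    simp only [h3]
    rw [ENNReal.tsum_mul_right]
    exact ENNReal.mul_ne_top hγ (ENNReal.mul_ne_top (ENNReal.natCast_ne_top _) hRi)
  have hi : ∀ q : {J : Ideal (𝓞 K) // Pri K L J} × (𝓞 K)ˣ,
      ∫ p in Fd K ×ˢ (univ : Set ℝ) ×ˢ An K, F ((q.2 : K) * X q.1) p =
      β q.1.1 * ∫ p, PJ q.1 (p.1 + lu K (sgu K ε q.2), p.2) ∂(mz K) := by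
    intro q
    have h3 : Integrable (fun r : (logSpace K × ℝ) × (InfinitePlace K → ℝ) =>
        F ((q.2 : K) * X q.1) (r.1.1, r.1.2, r.2)) ((mz K).prod mA) := by
      refine ⟨(hFm3 q).aestronglyMeasurable, ?_⟩
      have h4 := ENNReal.ne_top_of_tsum_ne_top htot q
      rw [lint3] at h4
      exact lt_top_iff_ne_top.2 h4
    rw [int3, integral_prod _ h3, ← integral_const_mul]
    refine integral_congr_ae (ae_of_all _ fun p => ?_)
    have h5 := h1 _ (hxm q) (hx0 q) p.1 p.2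
    rw [hid q, hzl q] at h5
    exact h5
  have hsR := ENNReal.summable_toReal htot
  have hsI : Summable (fun q : {J : Ideal (𝓞 K) // Pri K L J} × (𝓞 K)ˣ =>
      ∫ p in Fd K ×ˢ (univ : Set ℝ) ×ˢ An K, F ((q.2 : K) * X q.1) p) := by
    refine Summable.of_norm_bounded hsR fun q => ?_
    refine (norm_integral_le_integral_norm _).trans (le_of_eq ?_)
    rw [integral_norm_eq_lintegral_enorm (hFm _).aestronglyMeasurable]
  have hsum : ∫ p in Fd K ×ˢ (univ : Set ℝ) ×ˢ An K, ∑' x : {x : K // x ∈ L ∧ x ≠ 0}, F x p =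
      ∑' q : {J : Ideal (𝓞 K) // Pri K L J} × (𝓞 K)ˣ,
        ∫ p in Fd K ×ˢ (univ : Set ℝ) ×ˢ An K, F ((q.2 : K) * X q.1) p := by
    rw [← integral_tsum (fun q => (hFm _).aestronglyMeasurable) htot]
    refine integral_congr_ae (ae_of_all _ fun p => ?_)
    exact (e.tsum_eq (fun x => F x.1 p)).symm
  rw [hsum, hsI.tsum_prod]
  have hJ : ∀ J : {J : Ideal (𝓞 K) // Pri K L J}, ∑' u : (𝓞 K)ˣ,
      ∫ p in Fd K ×ˢ (univ : Set ℝ) ×ˢ An K, F ((u : K) * X J) p =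
      β J.1 * ((torsionOrder K : ℂ) * ∫ p, P p) := by
    intro J
    have hcJ := hcu J
    have h3 : ∀ u : (𝓞 K)ˣ, ∫ p in Fd K ×ˢ (univ : Set ℝ) ×ˢ An K, F ((u : K) * X J) p =
        β J.1 * ∫ p, PJ J (p.1 + lu K (sgu K ε u), p.2) ∂(mz K) := fun u => hi (J, u)
    simp only [h3]
    rw [tsum_mul_left, (sgu K ε).tsum_eq (fun u => ∫ p, PJ J (p.1 + lu K u, p.2) ∂(mz K)),
      (unf_int K Pool.Agent.H66.HK.fd Pool.Agent.H41.HK.un (PJ J) (hPJm J) (hPJi J)).2.2, hPJ2]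
  simp only [hJ]
  rw [tsum_mul_right]
  ring

end

end Pool.Agent.H61.DW
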