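import Pool.Agent.H29.DW.Tools
import Pool.Agent.H64.GLB.AN
import Pool.Agent.H61.DW.CLI
import Pool.Agent.H35.GLB.UDa

/-!
# Rotations and the kernel of the unfolding of smooth test functions
-/

set_option autoImplicit false

open NumberField NumberField.InfinitePlace NumberField.Units
  NumberField.Units.dirichletUnitTheorem MeasureTheory Set Filter Complex
open scoped nonZeroDivisors ENNReal

namespace Pool.Agent.H61.DW

open Pool.Agent.H25.HK Pool.Agent.H23.LB Pool.Agent.H23.LC
open Pool.Agent.H28.RC (Rep ft idl)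
open Pool.Agent.H29.DW
open Pool.Agent.H64.GLB (real_int cplx_int real_alg)
open Pool.Agent.H35.GLB (int_An ek_norm ek_meas an_meas An_fin B0 Rk Rk_meas Rk_fin yc_cont norm_reg)

section
open scoped Classical

/-- rotation of the angle at one place, for an arbitrary function -/
theorem rot (K : Type) [Field K] [NumberField K] (v : InfinitePlace K) (x : K) (hx : x ≠ 0)
    (k : ℤ) (a : ℝ) (F : ℂ → ℂ) :
    (∫ θ in Icc (0 : ℝ) (2 * Real.pi), an v θ ^ (-k) * F (v.embedding x * (a : ℂ) * an v θ) =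
      (v.embedding x / ((v x : ℝ) : ℂ)) ^ k * ∫ θ in Icc (0 : ℝ) (2 * Real.pi), an v θ ^ (-k) *
        F (((v x * a : ℝ) : ℂ) * an v θ)) ∧
    (∫ θ in Icc (0 : ℝ) (2 * Real.pi), an v θ ^ (-k) *
        F (v.embedding x * (a : ℂ) * (starRingEnd ℂ) (an v θ)) =
      (v.embedding x / ((v x : ℝ) : ℂ)) ^ (-k) * ∫ θ in Icc (0 : ℝ) (2 * Real.pi), an v θ ^ k *
        F (((v x * a : ℝ) : ℂ) * an v θ)) := by
  have hv : 0 < v x := InfinitePlace.pos_iff.2 hx
  have hv' : ((v x : ℝ) : ℂ) ≠ 0 := by exact_mod_cast hv.ne'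
  set c : ℂ := v.embedding x / ((v x : ℝ) : ℂ) with hc
  have hcn : ‖c‖ = 1 := by
    rw [hc, norm_div, InfinitePlace.norm_embedding_eq, Complex.norm_real,
      Real.norm_of_nonneg hv.le, div_self hv.ne']
  have hemb : v.embedding x * (a : ℂ) = ((v x * a : ℝ) : ℂ) * c := by
    rw [hc]
    push_cast
    field_simp
  let G : ℂ → ℂ := fun w => F (((v x * a : ℝ) : ℂ) * w)
  have hF : ∀ w : ℂ, F (v.embedding x * (a : ℂ) * w) = G (c * w) := by
    intro w
    simp only [G]
    rw [hemb, mul_assoc]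
  have hF' : ∀ w : ℂ, F (((v x * a : ℝ) : ℂ) * w) = G w := fun w => rfl
  simp only [hF, hF']
  by_cases hr : v.IsReal
  · have han : ∀ θ : ℝ, an v θ = if θ < Real.pi then 1 else -1 := by
      intro θ
      unfold an
      rw [if_pos hr]
    have hcc : c = 1 ∨ c = -1 := by
      have h1 : ((v.embedding x).im) = 0 := by
        have h2 := (InfinitePlace.isReal_iff.1 hr)
        have h3 := ComplexEmbedding.IsReal.coe_embedding_apply h2 x
        rw [← h3]
        exact Complex.ofReal_im _
      have h4 : v.embedding x = (((v.embedding x).re : ℝ) : ℂ) := by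
        apply Complex.ext
        · simp
        · simp [h1]
      have h5 : c = ((((v.embedding x).re / v x : ℝ)) : ℂ) := by
        rw [hc]
        conv_lhs => rw [h4]
        push_cast
        rfl
      rw [h5, Complex.norm_real, Real.norm_eq_abs, abs_eq (by norm_num)] at hcn
      rcases hcn with h6 | h6
      · left
        rw [h5, h6]
        simp
      · right
        rw [h5, h6]
        simp
    have hconj : ∀ θ : ℝ, (starRingEnd ℂ) (if θ < Real.pi then 1 else -1) =
        if θ < Real.pi then 1 else -1 := by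
      intro θ
      split_ifs <;> simp
    simp only [han, hconj]
    have e1 := real_int (fun w => w ^ (-k) * G (c * w))
    have e2 := real_int (fun w => w ^ (-k) * G w)
    have e3 := real_int (fun w => w ^ k * G w)
    obtain ⟨a1, a2⟩ := real_alg c hcc k G
    constructor
    · rw [e1, e2, a1]
      ring
    · rw [e1, e3, a2]
      ring
  · have han : ∀ θ : ℝ, an v θ = cexp (θ * I) := by
      intro θ
      unfold an
      rw [if_neg hr]
    simp only [han]
    exact cplx_int c hcn k G

variable (K : Type) [Field K] [NumberField K]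

/-- the integral over the angles of a product of local functions -/
noncomputable def Gk (g : InfinitePlace K → ℂ → ℂ) (k : InfinitePlace K → ℤ)
    (y : InfinitePlace K → ℝ) : ℂ :=
  ∫ θ in An K, ek k θ * ∏ v, g v (wv v (1 : K) y (om true θ))

theorem Gk_prod (g : InfinitePlace K → ℂ → ℂ) (k : InfinitePlace K → ℤ)
    (y : InfinitePlace K → ℝ) (x : K) (hx : x ≠ 0) :
    Gk K g k (fun v => y v + 2 * Real.log (v x)) =
      ∏ v, ∫ θ in Icc (0 : ℝ) (2 * Real.pi), an v θ ^ (-k v) *
        g v (((v x * Real.exp (y v / 2) : ℝ) : ℂ) * an v θ) := by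
  rw [← int_An]
  unfold Gk
  refine integral_congr_ae (ae_of_all _ fun θ => ?_)
  simp only
  unfold ek
  rw [← Finset.prod_mul_distrib]
  refine Finset.prod_congr rfl fun v _ => ?_
  have h1 : 0 < v x := by
    rw [InfinitePlace.pos_iff]
    exact hx
  have h2 : wv v (1 : K) (fun v => y v + 2 * Real.log (v x)) (om true θ) =
      ((v x * Real.exp (y v / 2) : ℝ) : ℂ) * an v (θ v) := by
    unfold wv om
    rw [map_one, one_mul, add_div, Real.exp_add, mul_div_cancel_left₀ _ (two_ne_zero),
      Real.exp_log h1, mul_comm (Real.exp (y v / 2)), if_pos rfl]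
  rw [h2]

/-- the integral over the angles -/
theorem rot_p (g : InfinitePlace K → ℂ → ℂ) (k : InfinitePlace K → ℤ)
    (y : InfinitePlace K → ℝ) (x : K) (hx : x ≠ 0) :
    ∫ θ in An K, ek k θ * ∏ v, g v (wv v x y (om true θ)) =
      ag k x * Gk K g k (fun v => y v + 2 * Real.log (v x)) := by
  rw [Gk_prod K g k y x hx]
  unfold ag
  rw [← Finset.prod_mul_distrib]
  rw [← Finset.prod_congr rfl fun v _ => (rot K v x hx (k v) (Real.exp (y v / 2)) (g v)).1,
    ← int_An]
  refine integral_congr_ae (ae_of_all _ fun θ => ?_)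
  simp only
  unfold ek wv om
  rw [← Finset.prod_mul_distrib]
  simp only [if_true]

/-- the integral over the conjugate angles -/
theorem rot_d (g : InfinitePlace K → ℂ → ℂ) (k : InfinitePlace K → ℤ)
    (y : InfinitePlace K → ℝ) (x : K) (hx : x ≠ 0) :
    ∫ θ in An K, ek k θ * ∏ v, g v (wv v x y (om false θ)) =
      ag (-k) x * Gk K g (-k) (fun v => y v + 2 * Real.log (v x)) := by
  rw [Gk_prod K g (-k) y x hx]
  unfold ag
  rw [← Finset.prod_mul_distrib]
  have h1 : ∀ v : InfinitePlace K, (v.embedding x / ((v x : ℝ) : ℂ)) ^ (-k) v *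
      ∫ θ in Icc (0 : ℝ) (2 * Real.pi), an v θ ^ (-(-k) v) *
        g v (((v x * Real.exp (y v / 2) : ℝ) : ℂ) * an v θ) =
      ∫ θ in Icc (0 : ℝ) (2 * Real.pi), an v θ ^ (-k v) *
        g v (v.embedding x * ((Real.exp (y v / 2) : ℝ) : ℂ) * (starRingEnd ℂ) (an v θ)) := by
    intro v
    rw [(rot K v x hx (k v) (Real.exp (y v / 2)) (g v)).2]
    simp only [Pi.neg_apply, neg_neg]
  rw [Finset.prod_congr rfl fun v _ => h1 v, ← int_An]
  refine integral_congr_ae (ae_of_all _ fun θ => ?_)
  simp only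
  unfold ek wv om
  rw [← Finset.prod_mul_distrib]
  simp only [Bool.false_eq_true, if_false]

/-! ### The test function -/

variable {K}

theorem om_meas (s : Bool) (v : InfinitePlace K) :
    Measurable (fun θ : InfinitePlace K → ℝ => om s θ v) := by
  unfold om
  have h1 : Measurable (fun θ : InfinitePlace K → ℝ => an v (θ v)) :=
    (an_meas K v).comp (measurable_pi_apply v)
  cases s
  · simp only [Bool.false_eq_true, if_false]
    exact Complex.continuous_conj.measurable.comp h1
  · simp only [if_true]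
    exact h1

theorem Wg_meas (cp : InfinitePlace K → ℂ) (H : InfinitePlace K → ℝ) (x : K) (s : Bool) :
    Measurable (fun q : (InfinitePlace K → ℝ) × (InfinitePlace K → ℝ) =>
      Wg cp H pb x q.1 (om s q.2)) := by
  unfold Wg
  refine Finset.measurable_prod _ fun v _ => ?_
  have h0 : Measurable (fun q : (InfinitePlace K → ℝ) × (InfinitePlace K → ℝ) =>
      wv v x q.1 (om s q.2)) := by
    unfold wv
    have h1 : Measurable (fun q : (InfinitePlace K → ℝ) × (InfinitePlace K → ℝ) =>
      om s q.2 v) := (om_meas s v).comp measurable_snd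
    fun_prop
  have h2 : Continuous (fun w : ℂ => tw1 (cp v) (H v) (pb v) w) := by
    unfold tw1 chp
    have h3 : Continuous (fun x : ℂ => (b0 x : ℂ)) := (b0_contDiff 0).continuous
    have h4 : Continuous (fun w : ℂ => pb v (H v * (w - 1))) := by
      unfold pb
      exact h3.comp (by fun_prop)
    refine Continuous.mul ?_ h4
    fun_prop
  exact h2.measurable.comp h0

theorem Wg_le_one (cp : InfinitePlace K → ℂ) (H : InfinitePlace K → ℝ) (x : K)
    (y : InfinitePlace K → ℝ) (ω : InfinitePlace K → ℂ) : ‖Wg cp H pb x y ω‖ ≤ 1 := by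
  rw [norm_Wg]
  refine Finset.prod_le_one (fun v _ => norm_nonneg _) fun v _ => ?_
  exact (pb_zero K v).norm_le _

/-- the bound by the indicator of a region -/
theorem Wg_bd (cp : InfinitePlace K → ℂ) (H : InfinitePlace K → ℝ) (hP : Prm cp H) (x : K)
    (hx : x ≠ 0) (y : InfinitePlace K → ℝ) (s : Bool) (θ : InfinitePlace K → ℝ) :
    ‖Wg cp H pb x y (om s θ)‖ₑ ≤
      if B0 K (1 / 16) (fun v => y v + 2 * Real.log (v x)) then 1 else 0 := by
  by_cases h : Wg cp H pb x y (om s θ) = 0
  · rw [h, enorm_zero]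
    exact bot_le
  · have h1 : B0 K (1 / 16) (fun v => y v + 2 * Real.log (v x)) := by
      intro v
      have h2 := Wg_ne (fun v => hP.one_le v) (fun v x hx => (pb_zero K v).supp x hx) h v
      have hv : 0 < v x := by
        rw [InfinitePlace.pos_iff]
        exact hx
      have h3 : ‖wv v x y (om s θ) - 1‖ ≤ 1 / 16 := by
        have h4 := hP.one_le v
        have h5 := norm_nonneg (wv v x y (om s θ) - 1)
        nlinarith
      have h4 : ‖wv v x y (om s θ)‖ = Real.exp ((y v + 2 * Real.log (v x)) / 2) := by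
        rw [norm_wv v x y (Pos_om s θ), add_div, Real.exp_add,
          mul_div_cancel_left₀ _ (two_ne_zero), Real.exp_log hv]
        ring
      have h5 := abs_norm_sub_norm_le (wv v x y (om s θ)) 1
      rw [h4, norm_one] at h5
      exact h5.trans h3
    rw [if_pos h1, ← ofReal_norm, ← ENNReal.ofReal_one]
    exact ENNReal.ofReal_le_ofReal (Wg_le_one cp H x y _)

/-! ### The kernel -/

variable (K)

/-- the kernel -/
noncomputable def Pw (cp : InfinitePlace K → ℂ) (H : InfinitePlace K → ℝ)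
    (k : InfinitePlace K → ℤ) (ν : InfinitePlace K → ℝ) (t : ℝ) (p : logSpace K × ℝ) : ℂ :=
  ec K ν p.1 * cexp (t * p.2 * I) *
    Gk K (fun v => tw1 (cp v) (H v) (pb v)) k (yc K p.2 p.1)

theorem WH_eq (cp : InfinitePlace K → ℂ) (H : InfinitePlace K → ℝ)
    (k : InfinitePlace K → ℤ) (ν : InfinitePlace K → ℝ) (t : ℝ) :
    WH K cp H k ν t = ∫ p, Pw K cp H k ν t p := rfl

theorem Gk_meas (cp : InfinitePlace K → ℂ) (H : InfinitePlace K → ℝ)
    (k : InfinitePlace K → ℤ) :
    Measurable (Gk K (fun v => tw1 (cp v) (H v) (pb v)) k) := by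
  have h1 : Measurable (fun q : (InfinitePlace K → ℝ) × (InfinitePlace K → ℝ) =>
      ek k q.2 * Wg cp H pb (1 : K) q.1 (om true q.2)) :=
    ((ek_meas K k).comp measurable_snd).mul (Wg_meas cp H 1 true)
  exact h1.stronglyMeasurable.integral_prod_right'.measurable

theorem Gk_bd (cp : InfinitePlace K → ℂ) (H : InfinitePlace K → ℝ) (hP : Prm cp H)
    (k : InfinitePlace K → ℤ) (y : InfinitePlace K → ℝ) :
    ‖Gk K (fun v => tw1 (cp v) (H v) (pb v)) k y‖ₑ ≤
      volume (An K) * if B0 K (1 / 16) y then 1 else 0 := by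
  unfold Gk
  refine (enorm_integral_le_lintegral_enorm _).trans ?_
  have h1 : ∀ θ : InfinitePlace K → ℝ, ‖ek k θ * ∏ v, tw1 (cp v) (H v) (pb v)
      (wv v (1 : K) y (om true θ))‖ₑ ≤ if B0 K (1 / 16) y then 1 else 0 := by
    intro θ
    rw [enorm_mul, ← ofReal_norm (ek k θ), ek_norm, ENNReal.ofReal_one, one_mul]
    have h2 := Wg_bd cp H hP (1 : K) one_ne_zero y true θ
    simp only [map_one, Real.log_one, mul_zero, add_zero] at h2
    exact h2
  refine (lintegral_mono h1).trans (le_of_eq ?_)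
  rw [lintegral_const, Measure.restrict_apply_univ, mul_comm]

theorem Pw_meas (hPU : T_PU) (cp : InfinitePlace K → ℂ) (H : InfinitePlace K → ℝ)
    (k : InfinitePlace K → ℤ) (ν : InfinitePlace K → ℝ) (t : ℝ) :
    Measurable (Pw K cp H k ν t) := by
  have h1 : Continuous (fun p : logSpace K × ℝ => ec K ν p.1) :=
    ((hPU K).2.2.2.2.1 ν).1.comp continuous_fst
  have h2 : Continuous (fun p : logSpace K × ℝ => cexp (t * p.2 * I)) := by fun_prop
  exact (h1.measurable.mul h2.measurable).mul ((Gk_meas K cp H k).comp (yc_cont K).measurable)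

theorem Pw_bd (hPU : T_PU) (cp : InfinitePlace K → ℂ) (H : InfinitePlace K → ℝ) (hP : Prm cp H)
    (k : InfinitePlace K → ℤ) (ν : InfinitePlace K → ℝ) (t : ℝ) (p : logSpace K × ℝ) :
    ‖Pw K cp H k ν t p‖ₑ ≤ volume (An K) * Rk K (1 / 16) p := by
  unfold Pw
  have h1 : ‖ec K ν p.1‖ₑ = 1 := by
    rw [← ofReal_norm, ((hPU K).2.2.2.2.1 ν).2, ENNReal.ofReal_one]
  have h2 : ‖cexp (t * p.2 * I)‖ₑ = 1 := by
    have : (t : ℂ) * p.2 * I = ((t * p.2 : ℝ) : ℂ) * I := by push_cast; ring
    rw [← ofReal_norm, this, Complex.norm_exp_ofReal_mul_I, ENNReal.ofReal_one]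
  rw [enorm_mul, enorm_mul, h1, h2, one_mul, one_mul]
  exact Gk_bd K cp H hP k _

theorem Pw_int (hPU : T_PU) (cp : InfinitePlace K → ℂ) (H : InfinitePlace K → ℝ) (hP : Prm cp H)
    (k : InfinitePlace K → ℤ) (ν : InfinitePlace K → ℝ) (t : ℝ) :
    Integrable (Pw K cp H k ν t) := by
  refine ⟨(Pw_meas K hPU cp H k ν t).aestronglyMeasurable, ?_⟩
  refine lt_of_le_of_lt (lintegral_mono (Pw_bd K hPU cp H hP k ν t)) ?_
  rw [lintegral_const_mul _ (Rk_meas K _)]
  exact ENNReal.mul_lt_top (An_fin K) (lt_top_iff_ne_top.2 (Rk_fin K _ (by norm_num)))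

end

end Pool.Agent.H61.DW
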